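import Pool.Agent.Y157.PS.Stm

/-!
# Divisors of degree divisible by `ℓ` are principal modulo `ℓ`

(helper941, task PS-T1C of helper157's project PS.)
-/

set_option autoImplicit false
set_option linter.all false

open FF

namespace Pool.Agent.Y941.PS

section places

variable {κ R N : Type} [Field κ] [Field R] [Field N] [Algebra κ R] [Algebra κ N] [Algebra R N]
  [IsScalarTower κ R N]

/-- the place `z ↦ w (g z)` -/
def pull (w : Place κ N) (g : N ≃ₐ[R] N) : Place κ N where
  ord z := w.ord (g z)
  ord_zero := by rw [map_zero, w.ord_zero]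
  ord_mul := by
    intro a b ha hb
    rw [map_mul]
    exact w.ord_mul ((map_ne_zero g).2 ha) ((map_ne_zero g).2 hb)
  ord_add := by
    intro a b ha hb hab
    have h1 : g a + g b ≠ 0 := by
      rw [← map_add]; exact (map_ne_zero g).2 hab
    have h2 := w.ord_add ((map_ne_zero g).2 ha) ((map_ne_zero g).2 hb) h1
    rwa [← map_add] at h2
  ord_const := by
    intro c hc
    rw [IsScalarTower.algebraMap_apply κ R N, AlgEquiv.commutes,
      ← IsScalarTower.algebraMap_apply]
    exact w.ord_const hc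
  surj := by
    obtain ⟨t, ht0, ht⟩ := w.surj
    refine ⟨g.symm t, (map_ne_zero g.symm).2 ht0, ?_⟩
    rw [AlgEquiv.apply_symm_apply]
    exact ht

theorem pull_ord (w : Place κ N) (g : N ≃ₐ[R] N) (z : N) : (pull w g).ord z = w.ord (g z) := rfl

theorem pull_one (w : Place κ N) : pull w (1 : N ≃ₐ[R] N) = w := by
  ext z; rfl

theorem pull_pull (w : Place κ N) (g h : N ≃ₐ[R] N) : pull (pull w g) h = pull w (g * h) := by
  ext z; rfl

/-- the bijection `w ↦ pull w g` of the set of places -/
def pullEquiv (g : N ≃ₐ[R] N) : Place κ N ≃ Place κ N where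
  toFun w := pull w g
  invFun w := pull w g⁻¹
  left_inv w := by
    change pull (pull w g) g⁻¹ = w
    rw [pull_pull, mul_inv_cancel, pull_one]
  right_inv w := by
    change pull (pull w g⁻¹) g = w
    rw [pull_pull, inv_mul_cancel, pull_one]

variable {ℓ : ℕ} [Fact ℓ.Prime] [CharZero κ] [IsFF κ N]

variable (ℓ κ N) in
/-- the functions on the places which kill all principal divisors -/
def ann : Submodule (ZMod ℓ) (Place κ N → ZMod ℓ) where
  carrier := {f | ∀ z : N, z ≠ 0 → (divisor κ z).sum (fun w n => f w * (n : ZMod ℓ)) = 0}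
  add_mem' := by
    intro f g hf hg z hz
    have h1 := hf z hz
    have h2 := hg z hz
    calc (divisor κ z).sum (fun w n => (f + g) w * (n : ZMod ℓ))
        = (divisor κ z).sum (fun w n => f w * (n : ZMod ℓ) + g w * (n : ZMod ℓ)) := by
          apply Finsupp.sum_congr
          intro w _
          rw [Pi.add_apply, add_mul]
      _ = _ := Finsupp.sum_add
      _ = 0 := by rw [h1, h2, add_zero]
  zero_mem' := by
    intro z hz
    simp
  smul_mem' := by
    intro c f hf z hz
    have h1 := hf z hz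
    calc (divisor κ z).sum (fun w n => (c • f) w * (n : ZMod ℓ))
        = (divisor κ z).sum (fun w n => c * (f w * (n : ZMod ℓ))) := by
          apply Finsupp.sum_congr
          intro w _
          rw [Pi.smul_apply, smul_eq_mul, mul_assoc]
      _ = c * (divisor κ z).sum (fun w n => f w * (n : ZMod ℓ)) := by
          rw [Finsupp.mul_sum]
      _ = 0 := by rw [h1, mul_zero]

theorem ann_const_aux (g : N ≃ₐ[R] N) {f : Place κ N → ZMod ℓ} (hf : f ∈ ann κ N ℓ) :
    (fun w => f (pull w g)) ∈ ann κ N ℓ := by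
  intro z hz
  have h1 := hf (g.symm z) ((map_ne_zero g.symm).2 hz)
  have h2 : Finsupp.equivMapDomain (pullEquiv g) (divisor κ z) = divisor κ (g.symm z) := by
    ext w
    rw [Finsupp.equivMapDomain_apply, divisor_apply, divisor_apply]
    rfl
  rw [← h2, Finsupp.sum_equivMapDomain] at h1
  exact h1

theorem deg_one [IsAlgClosed κ] (P : Place κ N) : P.deg = 1 := by
  have h1 : Function.Bijective (algebraMap κ P.RF) :=
    IsAlgClosed.algebraMap_bijective_of_isIntegral
  unfold Place.deg
  exact (LinearEquiv.ofBijective (Algebra.linearMap κ P.RF) h1).finrank_eq.symm.trans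
    (Module.finrank_self κ)

theorem sum_divisor [IsAlgClosed κ] (z : N) : (divisor κ z).sum (fun _ n => n) = 0 := by
  have h1 := ddeg_divisor (k := κ) z
  unfold ddeg at h1
  rw [← h1]
  apply Finsupp.sum_congr
  intro w _
  rw [deg_one w, Nat.cast_one, mul_one]

theorem const_mem_ann [IsAlgClosed κ] (c : ZMod ℓ) : (fun _ => c) ∈ ann κ N ℓ := by
  intro z hz
  have h1 : ((divisor κ z).sum (fun _ n => n) : ℤ) = 0 := sum_divisor z
  have h2 := congrArg (Int.cast : ℤ → ZMod ℓ) h1
  rw [Int.cast_zero] at h2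
  change (divisor κ z).sum (fun w n => c * (n : ZMod ℓ)) = 0
  rw [← Finsupp.mul_sum]
  unfold Finsupp.sum at h2 ⊢
  rw [Int.cast_sum] at h2
  rw [h2, mul_zero]

/-- the twisted action of the Galois group, for functions which vanish at `w0` -/
def T (w0 : Place κ N) (g : N ≃ₐ[R] N) : (Place κ N → ZMod ℓ) →ₗ[ZMod ℓ] (Place κ N → ZMod ℓ) where
  toFun f := fun w => f (pull w g) - f (pull w0 g)
  map_add' f h := by
    funext w
    simp only [Pi.add_apply]
    ring
  map_smul' c f := by
    funext w
    simp only [Pi.smul_apply, smul_eq_mul, RingHom.id_apply]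
    ring

theorem T_apply (w0 : Place κ N) (g : N ≃ₐ[R] N) (f : Place κ N → ZMod ℓ) (w : Place κ N) :
    T w0 g f w = f (pull w g) - f (pull w0 g) := rfl

theorem T_T (w0 : Place κ N) (g h : N ≃ₐ[R] N) (f : Place κ N → ZMod ℓ) :
    T w0 g (T w0 h f) = T w0 (g * h) f := by
  funext w
  simp only [T_apply, pull_pull]
  ring

theorem T_one (w0 : Place κ N) (f : Place κ N → ZMod ℓ) (w : Place κ N) :
    T w0 (1 : N ≃ₐ[R] N) f w = f w - f w0 := by
  rw [T_apply, pull_one, pull_one]

end places

/-- a function which kills the principal divisors is constant -/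
theorem ann_const (h1A : Pool.Agent.Y157.PS.S_T1A) (h1B : Pool.Agent.Y157.PS.S_T1B)
    (ℓ : ℕ) [Fact ℓ.Prime] (κ R N : Type) [Field κ] [IsAlgClosed κ] [CharZero κ] [Field R]
    [Field N] [Algebra κ R] [Algebra κ N] [Algebra R N] [IsScalarTower κ R N]
    [FiniteDimensional R N] [IsGalois R N] [IsFF κ N] (x : R)
    (hx : Pool.Agent.Y157.PS.RatF κ x) (hm : ∃ m : ℕ, Module.finrank R N = ℓ ^ m)
    (f0 : Place κ N → ZMod ℓ) (hf0 : f0 ∈ ann κ N ℓ) (w0 : Place κ N) :
    ∀ w, f0 w = f0 w0 := by
  classical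
  by_contra hne
  push Not at hne
  obtain ⟨w1, hw1⟩ := hne
  -- the constants are in `ann`
  have hpG : IsPGroup ℓ (N ≃ₐ[R] N) := by
    obtain ⟨m, hm⟩ := hm
    refine IsPGroup.of_card (n := m) ?_
    rw [IsGalois.card_aut_eq_finrank, hm]
  let S : Submodule (ZMod ℓ) (Place κ N → ZMod ℓ) :=
    Submodule.span (ZMod ℓ) (Set.range fun g : N ≃ₐ[R] N => T w0 g f0)
  have hTS : ∀ (g : N ≃ₐ[R] N) (s : Place κ N → ZMod ℓ), s ∈ S → T w0 g s ∈ S := by
    intro g s hs
    induction hs using Submodule.span_induction with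
    | mem y hy =>
      obtain ⟨h, rfl⟩ := hy
      change T w0 g (T w0 h f0) ∈ S
      rw [T_T]
      exact Submodule.subset_span ⟨g * h, rfl⟩
    | zero => rw [map_zero]; exact zero_mem _
    | add y z _ _ hy hz => rw [map_add]; exact add_mem hy hz
    | smul c y _ hy => rw [map_smul]; exact Submodule.smul_mem _ _ hy
  have hT1 : ∀ s : Place κ N → ZMod ℓ, s ∈ S → T w0 (1 : N ≃ₐ[R] N) s = s := by
    intro s hs
    induction hs using Submodule.span_induction with
    | mem y hy =>
      obtain ⟨h, rfl⟩ := hy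
      change T w0 1 (T w0 h f0) = T w0 h f0
      rw [T_T, one_mul]
    | zero => rw [map_zero]
    | add y z _ _ hy hz => rw [map_add, hy, hz]
    | smul c y _ hy => rw [map_smul, hy]
  letI : MulAction (N ≃ₐ[R] N) S :=
    { smul := fun g s => ⟨T w0 g s.1, hTS g s.1 s.2⟩
      one_smul := fun s => Subtype.ext (hT1 s.1 s.2)
      mul_smul := fun g h s => Subtype.ext (T_T w0 g h s.1).symm }
  have hfin : Module.Finite (ZMod ℓ) S := Module.Finite.span_of_finite _ (Set.finite_range _)
  have hfinS : Finite S := Module.finite_of_finite (ZMod ℓ)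
  have hne : T w0 (1 : N ≃ₐ[R] N) f0 ≠ 0 := by
    intro h
    have := congrFun h w1
    rw [T_one, Pi.zero_apply, sub_eq_zero] at this
    exact hw1 this
  have hnt : Nontrivial S :=
    ⟨⟨⟨_, Submodule.subset_span ⟨1, rfl⟩⟩, 0, fun h => hne (congrArg Subtype.val h)⟩⟩
  have hcard : ℓ ∣ Nat.card S := by
    rw [Module.natCard_eq_pow_finrank (K := ZMod ℓ), Nat.card_zmod]
    exact dvd_pow_self _ Module.finrank_pos.ne'
  have h0 : (0 : S) ∈ MulAction.fixedPoints (N ≃ₐ[R] N) S := by
    intro g
    exact Subtype.ext (map_zero (T w0 g))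
  obtain ⟨⟨s, hs⟩, hsfix, hs0⟩ :=
    hpG.exists_fixed_point_of_prime_dvd_card_of_fixed_point S hcard h0
  have hs0 : s ≠ 0 := fun h => hs0 (Subtype.ext h.symm)
  have hfix : ∀ g : N ≃ₐ[R] N, T w0 g s = s := fun g => congrArg Subtype.val (hsfix g)
  -- `s` vanishes at `w0` and is in `ann`
  have hsw0 : s w0 = 0 := by
    have := congrFun (hT1 s hs) w0
    rw [T_one, sub_self] at this
    exact this.symm
  have hsann : s ∈ ann κ N ℓ := by
    have h1 : S ≤ ann κ N ℓ := by
      refine Submodule.span_le.2 ?_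
      rintro _ ⟨g, rfl⟩
      have h2 : T w0 g f0 = (fun w => f0 (pull w g)) - (fun _ => f0 (pull w0 g)) := rfl
      change T w0 g f0 ∈ ann κ N ℓ
      rw [h2]
      exact sub_mem (ann_const_aux g hf0) (const_mem_ann _)
    exact h1 hs
  have hadd : ∀ (g : N ≃ₐ[R] N) (w : Place κ N), s (pull w g) = s w + s (pull w0 g) := by
    intro g w
    have := congrFun (hfix g) w
    rw [T_apply] at this
    rw [← this]; ring
  let χ : (N ≃ₐ[R] N) →* Multiplicative (ZMod ℓ) :=
    { toFun := fun g => Multiplicative.ofAdd (s (pull w0 g))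
      map_one' := by rw [pull_one, hsw0]; rfl
      map_mul' := by
        intro g h
        rw [← pull_pull, hadd h (pull w0 g)]; rfl }
  by_cases hχ : χ = 1
  · have h2 : ∀ g : N ≃ₐ[R] N, s (pull w0 g) = 0 := by
      intro g
      have := DFunLike.congr_fun hχ g
      exact this
    have h3 := h1A ℓ κ R N x hx s (by
      intro g w w' hww
      have h4 : w' = pull w g := by
        ext z
        exact hww z
      rw [h4, hadd, h2, add_zero]) hsann
    apply hs0
    funext w
    rw [h3 w w0, hsw0]; rfl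
  · obtain ⟨w, c, hw, hc⟩ := h1B ℓ κ R N x hx χ hχ
    apply hc
    have h4 : pull w c = w := by
      ext z
      exact hw z
    have h5 := hadd c w
    rw [h4, left_eq_add] at h5
    exact h5

theorem t1 : Pool.Agent.Y157.PS.S_T1A → Pool.Agent.Y157.PS.S_T1B → Pool.Agent.Y157.PS.S_T1 := by
  intro h1A h1B ℓ _ κ R N _ _ _ _ _ _ _ _ _ _ _ _ x hx hm D hD
  classical
  -- the subspace of the principal divisors modulo `ℓ`
  let q : (Place κ N →₀ ℤ) → (Place κ N →₀ ZMod ℓ) := fun E => E.mapRange (Int.cast) Int.cast_zero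
  let P : Submodule (ZMod ℓ) (Place κ N →₀ ZMod ℓ) :=
    { carrier := {v | ∃ z : N, z ≠ 0 ∧ v = q (divisor κ z)}
      add_mem' := by
        rintro _ _ ⟨y, hy, rfl⟩ ⟨z, hz, rfl⟩
        refine ⟨y * z, mul_ne_zero hy hz, ?_⟩
        ext w
        simp only [q, Finsupp.add_apply, Finsupp.mapRange_apply, divisor_apply]
        rw [w.ord_mul hy hz, Int.cast_add]
      zero_mem' := by
        refine ⟨1, one_ne_zero, ?_⟩
        ext w
        simp only [q, Finsupp.zero_apply, Finsupp.mapRange_apply, divisor_apply]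
        rw [w.ord_one, Int.cast_zero]
      smul_mem' := by
        rintro c _ ⟨z, hz, rfl⟩
        refine ⟨z ^ c.val, pow_ne_zero _ hz, ?_⟩
        ext w
        simp only [q, Finsupp.smul_apply, Finsupp.mapRange_apply, divisor_apply, smul_eq_mul]
        rw [w.ord_pow, Int.cast_mul, Int.cast_natCast, ZMod.natCast_zmod_val] }
  have key : q D ∈ P := by
    by_contra hDP
    obtain ⟨φ, hφ, hφP⟩ := Submodule.exists_dual_map_eq_bot_of_notMem hDP inferInstance
    let f : Place κ N → ZMod ℓ := fun w => φ (Finsupp.single w 1)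
    have hφf : ∀ E : Place κ N →₀ ℤ, φ (q E) = E.sum fun w n => f w * (n : ZMod ℓ) := by
      intro E
      have h1 : q E = E.sum fun w n => (n : ZMod ℓ) • Finsupp.single w (1 : ZMod ℓ) := by
        ext w
        simp only [q, Finsupp.mapRange_apply]
        rw [Finsupp.sum_apply]
        simp only [Finsupp.smul_apply, Finsupp.single_apply, smul_eq_mul]
        rw [Finsupp.sum_eq_single w]
        · simp
        · intro b _ hb
          simp [hb]
        · intro _
          simp
      rw [h1, map_finsuppSum]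
      apply Finsupp.sum_congr
      intro w _
      rw [map_smul, smul_eq_mul, mul_comm]
    have hf : f ∈ ann κ N ℓ := by
      intro z hz
      rw [← hφf]
      have h1 : φ (q (divisor κ z)) ∈ P.map φ := Submodule.mem_map_of_mem ⟨z, hz, rfl⟩
      rw [hφP] at h1
      exact (Submodule.mem_bot _).1 h1
    obtain ⟨w0, -⟩ := exists_place (k := κ) (K := N)
    have h2 := ann_const h1A h1B ℓ κ R N x hx hm f hf w0
    apply hφ
    rw [hφf]
    obtain ⟨m, hm⟩ := hD
    have h3 : (D.sum fun w n => f w * (n : ZMod ℓ)) =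
        f w0 * ((D.sum fun _ n => n : ℤ) : ZMod ℓ) := by
      unfold Finsupp.sum
      rw [Int.cast_sum, Finset.mul_sum]
      refine Finset.sum_congr rfl fun w _ => ?_
      change f w * ((D w : ℤ) : ZMod ℓ) = f w0 * ((D w : ℤ) : ZMod ℓ)
      rw [h2 w]
    rw [h3, hm, Int.cast_mul, Int.cast_natCast, ZMod.natCast_self, zero_mul, mul_zero]
  obtain ⟨z, hz, hDz⟩ := key
  refine ⟨z, hz, fun w => ?_⟩
  have h1 := DFunLike.congr_fun hDz w
  simp only [q, Finsupp.mapRange_apply, divisor_apply] at h1
  rw [← ZMod.intCast_zmod_eq_zero_iff_dvd, Int.cast_sub, h1, sub_self]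

end Pool.Agent.Y941.PS
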